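import Pool.Agent.H54.PM.Targets

/-!
# MP_def5ca_co, rows GEO and CON
-/

set_option autoImplicit false

open Pool.Agent.H54.PM
open scoped symmDiff

namespace Pool.Agent.H48.PMF

theorem pf_GEO (h5 : T_GON) (h6 : T_CPX) (h7 : T_MFD) (h8 : T_CNT) (h9 : T_ORI) (h10 : T_CON) :
    T_GEO := by
  classical
  intro p _ q W hp hW hq
  have hmem : ∀ A, A ∈ fam q W ↔ ∃ g ∈ W, fc q g = A := by
    intro A
    unfold fam
    rw [Finset.mem_image]
  refine ⟨⟨?_, ?_, ?_, ?_, ?_⟩, h10 p q W hp hW hq, ?_, ?_, h9 p q W hp hW hq⟩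
  · obtain ⟨g, hg⟩ := hW.ne
    exact ⟨fc q g, (hmem _).mpr ⟨g, hg, rfl⟩⟩
  · intro A hA
    obtain ⟨g, hg, rfl⟩ := (hmem A).mp hA
    exact ⟨p, h5 p q hp g (hq g hg)⟩
  · intro A hA B hB hne
    obtain ⟨g, hg, rfl⟩ := (hmem A).mp hA
    obtain ⟨h, hh, rfl⟩ := (hmem B).mp hB
    exact (h6 p q hp g h (hq g hg) (hq h hh) (fun e => hne (by rw [e]))).1
  · intro A hA B hB hne u v _ _
    obtain ⟨g, hg, rfl⟩ := (hmem A).mp hA
    obtain ⟨h, hh, rfl⟩ := (hmem B).mp hB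
    exact (h6 p q hp g h (hq g hg) (hq h hh) (fun e => hne (by rw [e]))).2
  · exact h7 p q W hp hW hq
  · intro A hA
    obtain ⟨g, hg, rfl⟩ := (hmem A).mp hA
    exact h5 p q hp g (hq g hg)
  · obtain ⟨e1, e2, e3⟩ := h8 p q W hp hq
    unfold chi cw
    rw [e1, e2, e3]

theorem pf_CON (h1 : T_PO1) (_h2 : T_PO2) (h3 : T_PTI) : T_CON := by
  classical
  intro p _ q W hp hW hq
  have hUn : Un (fam q W) = ⋃ g ∈ (W : Set (Wd p)), body (fc q g) := by
    ext z
    simp only [Un, fam, Set.mem_iUnion, Finset.mem_image, Finset.mem_coe, exists_prop]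
    constructor
    · rintro ⟨A, ⟨g, hg, rfl⟩, hz⟩
      exact ⟨g, hg, hz⟩
    · rintro ⟨g, hg, hz⟩
      exact ⟨fc q g, ⟨g, hg, rfl⟩, hz⟩
  rw [hUn]
  have hpt : ∀ (g : Wd p) (t : Fin p), pt q g (wv t) ∈ body (fc q g) := by
    intro g t
    apply subset_convexHull
    rw [Finset.mem_coe]
    unfold fc
    exact Finset.mem_image_of_mem _ (Finset.mem_univ t)
  obtain ⟨hI, -, -, -⟩ := h3 p q hp
  have hint : ∀ g ∈ W, ∀ h ∈ W, (∃ i, ag i g h) → (body (fc q g) ∩ body (fc q h)).Nonempty := by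
    rintro g hg h hh ⟨i, hi⟩
    refine ⟨pt q g (wv i), hpt g i, ?_⟩
    have : pt q g (wv i) = pt q h (wv i) := by
      refine (hI g h (hq g hg) (hq h hh) _ _).mpr ⟨rfl, fun j => ?_⟩
      by_cases hj : j = i
      · right
        rw [hj]
        exact (((h1 p hp).1 i i).2).mpr (Or.inl rfl)
      · left
        exact hi j hj
    rw [this]
    exact hpt h i
  refine IsConnected.biUnion_of_reflTransGen ?_ ?_ ?_
  · obtain ⟨g, hg⟩ := hW.ne
    exact ⟨g, Finset.mem_coe.mpr hg⟩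
  · intro g _
    exact ⟨⟨_, hpt g 0⟩, (convex_convexHull ℝ _).isPreconnected⟩
  · intro g hg h hh
    have hg' : g ∈ W := Finset.mem_coe.mp hg
    have hh' : h ∈ W := Finset.mem_coe.mp hh
    have key : ∀ h, Relation.ReflTransGen (mv W) g h → h ∈ W ∧
        Relation.ReflTransGen (fun i j => (body (fc q i) ∩ body (fc q j)).Nonempty ∧
          i ∈ (W : Set (Wd p))) g h := by
      intro h hgh
      induction hgh with
      | refl => exact ⟨hg', Relation.ReflTransGen.refl⟩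
      | tail _ hbc ih =>
        obtain ⟨hb, ihb⟩ := ih
        exact ⟨hbc.1, ihb.tail ⟨hint _ hb _ hbc.1 hbc.2, Finset.mem_coe.mpr hb⟩⟩
    exact (key h (hW.conn g hg' h hh')).2

end Pool.Agent.H48.PMF
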