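import Pool.Agent.H54.PM.Targets

/-!
# MP_def5ca_co, row ORF
-/

set_option autoImplicit false

open Pool.Agent.H54.PM
open scoped symmDiff

namespace Pool.Agent.H48.PMF

theorem glue_good (h1 : T_GLL) (h2 : T_GLP) (h3 : T_GLN) {p : ℕ} [NeZero p] {W₁ W₂ : Finset (Wd p)}
    (g1 : Good W₁) (g2 : Good W₂) (h : GH W₁ W₂) : Good (W₁ ∆ W₂) :=
  ⟨(h3 p W₁ W₂ g1 g2 h).1, h1 p W₁ W₂ g1 g2 h, h2 p W₁ W₂ g1 g2 h, (h3 p W₁ W₂ g1 g2 h).2⟩

theorem cube_letters {p : ℕ} {a b : Wd p} {g : Wd p} (hg : g ∈ cube a b) (i : Fin p) :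
    g i = a i ∨ g i = b i := by
  unfold cube at hg
  rw [Fintype.mem_piFinset] at hg
  have := hg i
  rwa [Finset.mem_insert, Finset.mem_singleton] at this

/-- gluing of a cube along one word -/
theorem add_step (h1 : T_GLL) (h2 : T_GLP) (h3 : T_GLN) (h4 : T_GLC) (h6 : T_CUG) (h7 : T_CUC)
    (h8 : T_ADD) {p : ℕ} [NeZero p] (hp : 5 ≤ p) {W : Finset (Wd p)} (hW : Good W) (f : Wd p)
    (hf : f ∈ W) (M : ℕ) (hM : ∀ g ∈ W, ∀ i, g i < M) :
    Good (W ∆ cube f fun _ => M) ∧ GH W (cube f fun _ => M) ∧ Good (cube f fun _ => M) ∧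
      W ∩ cube f (fun _ => M) = {f} ∧ (∀ g ∈ W ∆ cube f (fun _ => M), ∀ i, g i < M + 1) ∧
      cw (W ∆ cube f fun _ => M) = cw W - 2 ^ (p - 2) * ((p : ℤ) - 4) - 2 := by
  have hne : ∀ i, f i ≠ (fun _ : Fin p => M) i := fun i => (hM f hf i).ne
  have hQ : Good (cube f fun _ => M) := h6 p f (fun _ => M) (by omega) hne
  obtain ⟨hG, hI⟩ := h8 p W f M (by omega) hW hf hM
  refine ⟨glue_good h1 h2 h3 hW hQ hG, hG, hQ, hI, ?_, ?_⟩
  · intro g hg i
    rw [Finset.mem_symmDiff] at hg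
    rcases hg with ⟨hg, -⟩ | ⟨hg, -⟩
    · have := hM g hg i
      omega
    · rcases cube_letters hg i with e | e
      · have := hM f hf i
        omega
      · have e' : g i = M := e
        omega
  · rw [h4 p W _ (by omega) hW hQ hG, hI, (h7 p f (fun _ => M) (by omega) hne).1]
    have e1 : ∑ i : Fin p, ((((({f} : Finset (Wd p)).image (rs2 i)).card : ℕ)) : ℤ) = p := by
      rw [Finset.sum_congr rfl fun i _ => by rw [Finset.image_singleton, Finset.card_singleton]]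
      simp
    rw [e1]
    rw [Finset.card_singleton]
    push_cast
    ring

theorem pf_ORF (h1 : T_GLL) (h2 : T_GLP) (h3 : T_GLN) (h4 : T_GLC) (h5 : T_GLB) (h6 : T_CUG)
    (h7 : T_CUC) (h8 : T_ADD) (h9 : T_RRG) (h10 : T_RRC) (h11 : T_RRB) : T_ORF := by
  intro p _ hp
  set D : ℕ := 2 ^ (p - 3) * (p - 4) with hD
  have hDpos : 0 < D := Nat.mul_pos (by positivity) (by omega)
  have hDev : Even D := by
    have : 2 ∣ 2 ^ (p - 3) := dvd_pow_self 2 (by omega)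
    exact (even_iff_two_dvd.mpr this).mul_right _
  have hDZ : (D : ℤ) = 2 ^ (p - 3) * ((p : ℤ) - 4) := by
    rw [hD]
    push_cast
    rw [Nat.cast_sub (by omega)]
    push_cast
    ring
  have hDZ2 : (2 : ℤ) ^ (p - 2) * ((p : ℤ) - 4) = 2 * D := by
    rw [hDZ]
    have : p - 2 = (p - 3) + 1 := by omega
    rw [this, pow_succ]
    ring
  -- all steps
  have steps : ∀ m, 2 ≤ m → ∀ s : ℕ, ∃ (W : Finset (Wd p)) (M : ℕ), Good W ∧ Bip W ∧
      (∀ g ∈ W, ∀ i, g i < M) ∧ cw W = -((m * D + s * (2 * D + 2) : ℕ) : ℤ) := by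
    intro m hm s
    induction s with
    | zero =>
      refine ⟨RR p m, m, h9 p m hp hm, (h11 p m hp hm).1, (h11 p m hp hm).2, ?_⟩
      rw [h10 p m hp hm]
      push_cast
      rw [hDZ]
      ring
    | succ s ih =>
      obtain ⟨W, M, hW, hB, hM, hc⟩ := ih
      obtain ⟨f, hf⟩ := hW.ne
      obtain ⟨a1, a2, a3, a4, a5, a6⟩ := add_step h1 h2 h3 h4 h6 h7 h8 hp hW f hf M hM
      have hne : ∀ i, f i ≠ (fun _ : Fin p => M) i := fun i => (hM f hf i).ne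
      refine ⟨W ∆ cube f fun _ => M, M + 1, a1, ?_, a5, ?_⟩
      · exact h5 p W _ f hW a3 a2 a4 hB (h7 p f (fun _ => M) (by omega) hne).2
      · rw [a6, hc, hDZ2]
        push_cast
        ring
  refine ⟨D * D + 3 * D, fun X hX hXe => ?_⟩
  have hmod : 2 ∣ X % D := (Nat.dvd_mod_iff (even_iff_two_dvd.mp hDev)).mpr (even_iff_two_dvd.mp hXe)
  obtain ⟨s, hs⟩ := hmod
  have hlt : X % D < D := Nat.mod_lt _ hDpos
  have hdiv : D + 3 ≤ X / D := by
    rw [Nat.le_div_iff_mul_le hDpos]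
    nlinarith
  obtain ⟨m, hm⟩ : ∃ m, X / D = m + 2 * s := ⟨X / D - 2 * s, by omega⟩
  have hm2 : 2 ≤ m := by omega
  obtain ⟨W, M, hW, hB, -, hc⟩ := steps m hm2 s
  refine ⟨W, hW, hB, ?_⟩
  rw [hc]
  have hX' := Nat.div_add_mod X D
  rw [hm, hs] at hX'
  have : m * D + s * (2 * D + 2) = X := by
    rw [← hX']; ring
  rw [this]

end Pool.Agent.H48.PMF
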