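import Pool.Agent.H48.PMF.RRB
import Pool.Agent.H48.PMF.ORF

/-!
# MP_def5ca_co, rows NG1 and NG3
-/

set_option autoImplicit false

open Pool.Agent.H54.PM
open scoped symmDiff

namespace Pool.Agent.H48.PMF

theorem Pla_congr {p : ℕ} [NeZero p] (W : Finset (Wd p)) (i : Fin p) (k k' : Wd p)
    (h : ag2 i k k') (H : Pla W i k) : Pla W i k' := by
  intro f hf g hg l hl kf kg kl
  exact H f hf g hg l hl (fun t h1 h2 => (h t h1 h2).trans (kf t h1 h2))
    (fun t h1 h2 => (h t h1 h2).trans (kg t h1 h2)) (fun t h1 h2 => (h t h1 h2).trans (kl t h1 h2))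

theorem w2_in {p : ℕ} [NeZero p] (j : Fin p) (x y : ℕ) (t : Fin p) (h : t = 0 ∨ t = j) :
    w2 j x y t = x := by
  unfold w2
  rw [if_pos h]

theorem w2_out {p : ℕ} [NeZero p] (j : Fin p) (x y : ℕ) (t : Fin p) (h : ¬ (t = 0 ∨ t = j)) :
    w2 j x y t = y := by
  unfold w2
  rw [if_neg h]

/-- the common part -/
theorem ng_common (h1 : T_GLL) (h2 : T_GLP) (h3 : T_GLN) (h4 : T_GLC) (h6 : T_CUG) (h7 : T_CUC)
    (h8 : T_ADD) (h9 : T_RRG) (h10 : T_RRC) (h11 : T_RRB) (h12 : T_DBG) (p : ℕ) [NeZero p] (m : ℕ)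
    (hp : 5 ≤ p) (hm : 2 ≤ m) (j : Fin p) (hj : j.val = 1 ∨ j.val = 3)
    (hpl : ∀ i, ¬ ag2 i (w2 j 1 0) (w2 j m 0) ∨ Pla (WN p m j) i (w2 j 1 0)) :
    Good (WN p m j) ∧ cw (WN p m j) = -((m : ℤ) * 2 ^ (p - 3) * ((p : ℤ) - 4)) -
      4 * (2 ^ (p - 3) * ((p : ℤ) - 4)) - 2 + ((p : ℤ) - 2) * 2 -
      ∑ i : Fin p, (((({w2 j 1 0, w2 j m 0} : Finset (Wd p)).image (rs2 i)).card : ℕ) : ℤ) := by
  classical
  have hj0 : j ≠ 0 := by
    intro h
    have := congrArg Fin.val h
    have h0 : (0 : Fin p).val = 0 := rfl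
    omega
  have h2v : (Fin.ofNat p 2 : Fin p).val = 2 := ofNat_val p 2 (by omega)
  have h20 : ¬ ((Fin.ofNat p 2 : Fin p) = 0 ∨ (Fin.ofNat p 2 : Fin p) = j) := by
    rintro (h | h)
    · have := congrArg Fin.val h
      have h0 : (0 : Fin p).val = 0 := rfl
      omega
    · have := congrArg Fin.val h
      omega
  -- the first two blocks
  have hRR := h9 p m hp hm
  obtain ⟨hRB, hRl⟩ := h11 p m hp hm
  have hz : (fun _ : Fin p => 0) ∈ RR p m := by
    rw [mem_RR hp]
    exact ⟨fun i => ⟨fun _ => by omega, fun _ => Or.inl rfl⟩, Or.inl rfl⟩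
  obtain ⟨a1, a2, a3, a4, a5, a6⟩ :=
    add_step h1 h2 h3 h4 h6 h7 h8 hp hRR (fun _ => 0) hz m hRl
  have eWA : WA p m = RR p m ∆ cube (fun _ => 0) (fun _ => m) := rfl
  rw [← eWA] at a1 a5 a6
  set f : Wd p := w2 j 1 0 with hf
  set f' : Wd p := w2 j m 0 with hf'
  have hlet : ∀ g ∈ WA p m, (∀ i, g i < m) ∨ (∀ i, g i = 0 ∨ g i = m) := by
    intro g hg
    rw [eWA, Finset.mem_symmDiff] at hg
    rcases hg with ⟨hg, -⟩ | ⟨hg, -⟩
    · left; exact hRl g hg
    · right; exact fun i => cube_letters hg i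
  have hfRR : f ∈ RR p m := by
    rw [mem_RR hp]
    refine ⟨fun i => ⟨fun _ => ?_, fun _ => ?_⟩, Or.inr ?_⟩
    · by_cases hi : i = 0 ∨ i = j
      · rw [hf, w2_in j _ _ i hi]; omega
      · rw [hf, w2_out j _ _ i hi]; omega
    · by_cases hi : i = 0 ∨ i = j
      · right; exact w2_in j _ _ i hi
      · left; exact w2_out j _ _ i hi
    · rw [hf, w2_in j _ _ 0 (Or.inl rfl), w2_out j _ _ _ h20]
      exact (Nat.mod_eq_of_lt (by omega)).symm
  have hf0 : f 0 = 1 := w2_in j _ _ 0 (Or.inl rfl)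
  have hfj : f j = 1 := w2_in j _ _ j (Or.inr rfl)
  have hf'0 : f' 0 = m := w2_in j _ _ 0 (Or.inl rfl)
  have hf'j : f' j = m := w2_in j _ _ j (Or.inr rfl)
  have hfWA : f ∈ WA p m := by
    rw [eWA, Finset.mem_symmDiff]
    left
    refine ⟨hfRR, fun h => ?_⟩
    have := cube_letters h 0
    rw [hf0] at this
    rcases this with h | h
    · exact absurd h (by decide)
    · have h' : 1 = m := h
      omega
  have hf'WA : f' ∈ WA p m := by
    rw [eWA, Finset.mem_symmDiff]
    right
    constructor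
    · unfold cube
      rw [Fintype.mem_piFinset]
      intro i
      rw [Finset.mem_insert, Finset.mem_singleton]
      by_cases hi : i = 0 ∨ i = j
      · right; exact w2_in j _ _ i hi
      · left; exact w2_out j _ _ i hi
    · intro h
      have := hRl f' h 0
      rw [hf'0] at this
      omega
  have hrest : ∀ t, t ≠ 0 → t ≠ j → f t = f' t := by
    intro t h0 h1
    have : ¬ (t = 0 ∨ t = j) := by
      rintro (h | h)
      · exact h0 h
      · exact h1 h
    rw [hf, hf', w2_out j _ _ t this, w2_out j _ _ t this]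
  have hmix : ∀ g ∈ WA p m, ¬ (g 0 = f 0 ∧ g j = f' j) ∧ ¬ (g 0 = f' 0 ∧ g j = f j) := by
    intro g hg
    rw [hf0, hfj, hf'0, hf'j]
    rcases hlet g hg with h | h
    · have e0 := h 0
      have ej := h j
      constructor <;> omega
    · have e0 := h 0
      have ej := h j
      constructor <;> omega
  have hcube : (fun t : Fin p => if t = 0 ∨ t = j then f' t else m + 1) = w2 j m (m + 1) := by
    funext t
    by_cases h : t = 0 ∨ t = j
    · rw [if_pos h, w2_in j _ _ t h, hf', w2_in j _ _ t h]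
    · rw [if_neg h, w2_out j _ _ t h]
  -- the intersection
  have hint : ∀ k ∈ WA p m ∩ cube f (w2 j m (m + 1)), k = f ∨ k = f' := by
    intro k hk
    obtain ⟨k1, k2⟩ := Finset.mem_inter.mp hk
    have hout : ∀ t, ¬ (t = 0 ∨ t = j) → k t = 0 := by
      intro t ht
      rcases cube_letters k2 t with h | h
      · rw [h, hf, w2_out j _ _ t ht]
      · rw [w2_out j _ _ t ht] at h
        have := a5 k k1 t
        omega
    have e0 : k 0 = 1 ∨ k 0 = m := by
      rcases cube_letters k2 0 with h | h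
      · left; rw [h, hf0]
      · right; rw [h, w2_in j _ _ 0 (Or.inl rfl)]
    have ej : k j = 1 ∨ k j = m := by
      rcases cube_letters k2 j with h | h
      · left; rw [h, hfj]
      · right; rw [h, w2_in j _ _ j (Or.inr rfl)]
    have hx := hmix k k1
    rw [hf0, hfj, hf'0, hf'j] at hx
    have hcase : (k 0 = 1 ∧ k j = 1) ∨ (k 0 = m ∧ k j = m) := by tauto
    rcases hcase with ⟨c0, cj⟩ | ⟨c0, cj⟩
    · left
      funext t
      by_cases ht : t = 0 ∨ t = j
      · rw [hf, w2_in j _ _ t ht]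
        rcases ht with rfl | rfl
        · exact c0
        · exact cj
      · rw [hf, w2_out j _ _ t ht, hout t ht]
    · right
      funext t
      by_cases ht : t = 0 ∨ t = j
      · rw [hf', w2_in j _ _ t ht]
        rcases ht with rfl | rfl
        · exact c0
        · exact cj
      · rw [hf', w2_out j _ _ t ht, hout t ht]
  have hsym : ∀ i (g h : Wd p), ag2 i g h → ag2 i h g := fun i g h H t h1 h2 => (H t h1 h2).symm
  have hlast : ∀ i, (∀ k ∈ WA p m ∩ cube f (fun t => if t = 0 ∨ t = j then f' t else m + 1),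
      (∀ k' ∈ WA p m ∩ cube f (fun t => if t = 0 ∨ t = j then f' t else m + 1),
        ag2 i k k' → k' = k) ∨
      Pla (WA p m ∆ cube f (fun t => if t = 0 ∨ t = j then f' t else m + 1)) i k) := by
    intro i k hk
    rw [hcube] at hk ⊢
    by_cases hff : ag2 i f f'
    · right
      have hP : Pla (WN p m j) i f := by
        rcases hpl i with h | h
        · exact absurd hff h
        · exact h
      rcases hint k hk with rfl | rfl
      · exact hP
      · exact Pla_congr _ i f _ hff hP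
    · left
      intro k' hk' hkk
      rcases hint k hk with rfl | rfl <;> rcases hint k' hk' with rfl | rfl
      · rfl
      · exact absurd hkk hff
      · exact absurd (hsym _ _ _ hkk) hff
      · rfl
  have hQne : ∀ i, f i ≠ w2 j m (m + 1) i := by
    intro i
    by_cases ht : i = 0 ∨ i = j
    · rw [hf, w2_in j _ _ i ht, w2_in j _ _ i ht]; omega
    · rw [hf, w2_out j _ _ i ht, w2_out j _ _ i ht]; omega
  have hQ : Good (cube f (w2 j m (m + 1))) := h6 p _ _ (by omega) hQne
  obtain ⟨hG, hI⟩ := h12 p (WA p m) f f' j (m + 1) (by omega) a1 hfWA hf'WA hj0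
    (by rw [hf0, hf'0]; omega) (by rw [hfj, hf'j]; omega) hrest hmix a5 hlast
  rw [hcube] at hG hI
  have hgood : Good (WN p m j) := glue_good h1 h2 h3 a1 hQ hG
  refine ⟨hgood, ?_⟩
  have hff : f ≠ f' := by
    intro e
    have := congrFun e 0
    rw [hf0, hf'0] at this
    omega
  have eW : WN p m j = WA p m ∆ cube f (w2 j m (m + 1)) := rfl
  rw [eW, h4 p _ _ (by omega) a1 hQ hG, hI, Finset.card_pair hff, a6, h10 p m hp hm,
    (h7 p _ _ (by omega) hQne).1]
  have hpow : (2 : ℤ) ^ (p - 2) = 2 * 2 ^ (p - 3) := by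
    have : p - 2 = (p - 3) + 1 := by omega
    rw [this, pow_succ]
    ring
  rw [hpow]
  push_cast
  ring

/-- `rs2` identifies two words exactly if they agree outside `i`, `i + 1` -/
theorem rs2_eq {p : ℕ} [NeZero p] (i : Fin p) (g h : Wd p) : rs2 i g = rs2 i h ↔ ag2 i g h := by
  constructor
  · intro e t h1 h2
    have := congrFun e t
    unfold rs2 at this
    rw [if_neg (by rintro (h | h); exacts [h1 h, h2 h]),
      if_neg (by rintro (h | h); exacts [h1 h, h2 h])] at this
    exact this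
  · intro e
    funext t
    unfold rs2
    by_cases ht : t = i ∨ t = i + 1
    · rw [if_pos ht, if_pos ht]
    · rw [if_neg ht, if_neg ht]
      exact e t (fun h => ht (Or.inl h)) (fun h => ht (Or.inr h))

theorem card_pair_image {p : ℕ} [NeZero p] (i : Fin p) (g h : Wd p) (hgh : ¬ ag2 i g h) :
    (({g, h} : Finset (Wd p)).image (rs2 i)).card = 2 := by
  classical
  rw [Finset.image_insert, Finset.image_singleton, Finset.card_pair]
  exact fun e => hgh ((rs2_eq i g h).mp e)

theorem card_pair_image' {p : ℕ} [NeZero p] (i : Fin p) (g h : Wd p) (hgh : ag2 i g h) :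
    (({g, h} : Finset (Wd p)).image (rs2 i)).card = 1 := by
  classical
  rw [Finset.image_insert, Finset.image_singleton, (rs2_eq i g h).mpr hgh]
  simp

theorem succ_val {p : ℕ} [NeZero p] (hp : 5 ≤ p) (i : Fin p) :
    (i + 1).val = if i.val + 1 = p then 0 else i.val + 1 := by
  have h1 : ((1 : Fin p)).val = 1 := ofNat_val p 1 (by omega)
  rw [Fin.val_add, h1]
  split_ifs with h
  · rw [h, Nat.mod_self]
  · exact Nat.mod_eq_of_lt (by have := i.2; omega)

theorem pf_NG3 (h1 : T_GLL) (h2 : T_GLP) (h3 : T_GLN) (h4 : T_GLC) (h6 : T_CUG) (h7 : T_CUC)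
    (h8 : T_ADD) (h9 : T_RRG) (h10 : T_RRC) (h11 : T_RRB) (h12 : T_DBG) : T_NG3 := by
  intro p _ m hp hm
  have hj : (Fin.ofNat p 3 : Fin p).val = 3 := ofNat_val p 3 (by omega)
  have hno : ∀ i : Fin p, ¬ ag2 i (w2 (Fin.ofNat p 3) 1 0) (w2 (Fin.ofNat p 3) m 0) := by
    intro i h
    have e0 : (0 : Fin p) = i ∨ (0 : Fin p) = i + 1 := by
      by_contra hc
      push Not at hc
      have := h 0 hc.1 hc.2
      rw [w2_in _ _ _ 0 (Or.inl rfl), w2_in _ _ _ 0 (Or.inl rfl)] at this
      omega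
    have e3 : (Fin.ofNat p 3 : Fin p) = i ∨ (Fin.ofNat p 3 : Fin p) = i + 1 := by
      by_contra hc
      push Not at hc
      have := h _ hc.1 hc.2
      rw [w2_in _ _ _ _ (Or.inr rfl), w2_in _ _ _ _ (Or.inr rfl)] at this
      omega
    have hs := succ_val hp i
    have h0 : (0 : Fin p).val = 0 := rfl
    have hi := i.2
    rcases e0 with e0 | e0 <;> rcases e3 with e3 | e3
    · have a := congrArg Fin.val e0
      have b := congrArg Fin.val e3
      omega
    · have a := congrArg Fin.val e0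
      have b := congrArg Fin.val e3
      rw [hs] at b
      split_ifs at b <;> omega
    · have a := congrArg Fin.val e0
      have b := congrArg Fin.val e3
      rw [hs] at a
      split_ifs at a <;> omega
    · have a := congrArg Fin.val (e0.trans e3.symm)
      omega
  obtain ⟨hg, hc⟩ := ng_common h1 h2 h3 h4 h6 h7 h8 h9 h10 h11 h12 p m hp hm (Fin.ofNat p 3)
    (Or.inr hj) (fun i => Or.inl (hno i))
  refine ⟨hg, ?_⟩
  rw [hc]
  rw [Finset.sum_congr rfl fun i _ => by rw [card_pair_image i _ _ (hno i)]]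
  simp only [Finset.sum_const, Finset.card_univ, Fintype.card_fin, nsmul_eq_mul]
  push_cast
  ring

theorem pf_NG1 (h1 : T_GLL) (h2 : T_GLP) (h3 : T_GLN) (h4 : T_GLC) (h6 : T_CUG) (h7 : T_CUC)
    (h8 : T_ADD) (h9 : T_RRG) (h10 : T_RRC) (h11 : T_RRB) (h12 : T_DBG) (h13 : T_SPL) : T_NG1 := by
  intro p _ m hp hm
  have hj : (Fin.ofNat p 1 : Fin p).val = 1 := ofNat_val p 1 (by omega)
  have h0 : (0 : Fin p).val = 0 := rfl
  have h01 : (0 : Fin p) + 1 = Fin.ofNat p 1 := by
    apply Fin.ext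
    rw [succ_val hp, h0, hj, if_neg (by omega)]
  have hyes : ag2 0 (w2 (Fin.ofNat p 1 : Fin p) 1 0) (w2 (Fin.ofNat p 1) m 0) := by
    intro t h1 h2
    rw [h01] at h2
    have : ¬ (t = 0 ∨ t = Fin.ofNat p 1) := by
      rintro (h | h)
      · exact h1 h
      · exact h2 h
    rw [w2_out _ _ _ t this, w2_out _ _ _ t this]
  have hno : ∀ i : Fin p, i ≠ 0 →
      ¬ ag2 i (w2 (Fin.ofNat p 1) 1 0) (w2 (Fin.ofNat p 1) m 0) := by
    intro i hi0 h
    have e0 : (0 : Fin p) = i ∨ (0 : Fin p) = i + 1 := by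
      by_contra hc
      push Not at hc
      have := h 0 hc.1 hc.2
      rw [w2_in _ _ _ 0 (Or.inl rfl), w2_in _ _ _ 0 (Or.inl rfl)] at this
      omega
    have e3 : (Fin.ofNat p 1 : Fin p) = i ∨ (Fin.ofNat p 1 : Fin p) = i + 1 := by
      by_contra hc
      push Not at hc
      have := h _ hc.1 hc.2
      rw [w2_in _ _ _ _ (Or.inr rfl), w2_in _ _ _ _ (Or.inr rfl)] at this
      omega
    have hs := succ_val hp i
    have hi := i.2
    rcases e0 with e0 | e0
    · exact hi0 e0.symm
    rcases e3 with e3 | e3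
    · have a := congrArg Fin.val e0
      have b := congrArg Fin.val e3
      rw [hs] at a
      split_ifs at a <;> omega
    · have a := congrArg Fin.val (e0.trans e3.symm)
      omega
  obtain ⟨hg, hc⟩ := ng_common h1 h2 h3 h4 h6 h7 h8 h9 h10 h11 h12 p m hp hm (Fin.ofNat p 1)
    (Or.inl hj) (fun i => by
      by_cases hi : i = 0
      · right
        rw [hi]
        exact h13 p m hp hm
      · left
        exact hno i hi)
  refine ⟨hg, ?_⟩
  rw [hc]
  have hsum : ∑ i : Fin p, (((({w2 (Fin.ofNat p 1) 1 0, w2 (Fin.ofNat p 1) m 0} : Finset (Wd p)).image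
      (rs2 i)).card : ℕ) : ℤ) = 2 * p - 1 := by
    rw [← Finset.add_sum_erase Finset.univ _ (Finset.mem_univ (0 : Fin p)), card_pair_image' 0 _ _ hyes]
    rw [Finset.sum_congr rfl fun i hi => by
      rw [card_pair_image i _ _ (hno i (Finset.ne_of_mem_erase hi))]]
    simp only [Finset.sum_const, Finset.card_erase_of_mem (Finset.mem_univ (0 : Fin p)),
      Finset.card_univ, Fintype.card_fin, nsmul_eq_mul]
    have : ((p - 1 : ℕ) : ℤ) = (p : ℤ) - 1 := by
      rw [Nat.cast_sub (by omega)]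
      rfl
    rw [this]
    push_cast
    ring
  rw [hsum]
  ring

end Pool.Agent.H48.PMF
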