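import Pool.Agent.H54.PM.Targets

/-!
# MP_def5ca_co, row RRB
-/

set_option autoImplicit false

open Pool.Agent.H54.PM
open scoped symmDiff

namespace Pool.Agent.H48.PMF

theorem ofNat_val (p k : ℕ) [NeZero p] (h : k < p) : (Fin.ofNat p k).val = k := by
  show k % p = k
  exact Nat.mod_eq_of_lt h

theorem zero_val (p : ℕ) [NeZero p] : (0 : Fin p).val = 0 := rfl

/-- membership in `RR` -/
theorem mem_RR {p m : ℕ} [NeZero p] (hp : 5 ≤ p) (g : Wd p) :
    g ∈ RR p m ↔ (∀ i : Fin p, (i.val = 0 ∨ i.val = 2 → g i < m) ∧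
      (¬ (i.val = 0 ∨ i.val = 2) → g i = 0 ∨ g i = 1)) ∧
      (g 0 = g (Fin.ofNat p 2) ∨ g 0 = (g (Fin.ofNat p 2) + 1) % m) := by
  unfold RR
  rw [Finset.mem_filter, Fintype.mem_piFinset]
  refine and_congr (forall_congr' fun i => ?_) Iff.rfl
  by_cases h : i.val = 0 ∨ i.val = 2
  · rw [if_pos h, Finset.mem_range]
    exact ⟨fun h1 => ⟨fun _ => h1, fun h2 => absurd h h2⟩, fun h1 => h1.1 h⟩
  · rw [if_neg h, Finset.mem_insert, Finset.mem_singleton]
    exact ⟨fun h1 => ⟨fun h2 => absurd h2 h, fun _ => h1⟩, fun h1 => h1.2 h⟩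

theorem pf_RRB : T_RRB := by
  classical
  intro p _ m hp hm
  set two : Fin p := Fin.ofNat p 2 with htwo
  have h2v : two.val = 2 := ofNat_val p 2 (by omega)
  have h0v : (0 : Fin p).val = 0 := rfl
  have h20 : two ≠ 0 := by
    intro h
    have := congrArg Fin.val h
    omega
  have hlet : ∀ g ∈ RR p m, ∀ i, g i < m := by
    intro g hg i
    rw [mem_RR hp] at hg
    by_cases h : i.val = 0 ∨ i.val = 2
    · exact (hg.1 i).1 h
    · have := (hg.1 i).2 h
      omega
  refine ⟨?_, hlet⟩
  set A : Finset (Fin p) := Finset.univ.filter fun i : Fin p => ¬ (i.val = 0 ∨ i.val = 2) with hA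
  set N : Wd p → ℕ := fun g => ∑ i ∈ A, g i + (if g 0 = g two then 1 else 0) with hN
  refine ⟨fun g => decide (N g % 2 = 0), ?_⟩
  intro g hg h hh hne ⟨i, hi⟩ hc
  have hgm := hlet g hg
  have hhm := hlet h hh
  have hg' := (mem_RR hp g).mp hg
  have hh' := (mem_RR hp h).mp hh
  have hpar : N g % 2 = 0 ↔ N h % 2 = 0 := by
    have := hc
    simpa using this
  have hdiff : g i ≠ h i := by
    intro e
    apply hne
    funext t
    by_cases ht : t = i
    · rw [ht, e]
    · exact hi t ht
  by_cases hi02 : i.val = 0 ∨ i.val = 2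
  · -- the sum over `A` does not change
    have hsum : ∑ t ∈ A, g t = ∑ t ∈ A, h t := by
      refine Finset.sum_congr rfl fun t ht => hi t ?_
      rintro rfl
      exact (Finset.mem_filter.mp ht).2 hi02
    have hflip : (g 0 = g two ∧ h 0 ≠ h two) ∨ (g 0 ≠ g two ∧ h 0 = h two) := by
      rcases hi02 with h0 | h0
      · have hi0 : i = 0 := Fin.ext h0
        rw [hi0] at hdiff
        have e2 : g two = h two := hi two (by rw [hi0]; exact h20)
        have a1 := hg'.2
        have a2 := hh'.2
        rw [← htwo] at a1 a2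
        rw [← e2] at a2
        rw [← e2]
        rcases a1 with a1 | a1
        · left
          refine ⟨a1, fun e => hdiff ?_⟩
          rw [a1, e]
        · rcases a2 with a2 | a2
          · right
            exact ⟨fun e => hdiff (by rw [e, a2]), a2⟩
          · exact absurd (by rw [a1, a2]) hdiff
      · have hi2 : i = two := Fin.ext (by rw [h0, h2v])
        rw [hi2] at hdiff
        have e0 : g 0 = h 0 := hi 0 (by rw [hi2]; exact h20.symm)
        have a1 := hg'.2
        have a2 := hh'.2
        rw [← htwo] at a1 a2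
        rw [← e0] at a2
        rw [← e0]
        rcases a1 with a1 | a1
        · left
          refine ⟨a1, fun e => hdiff ?_⟩
          rw [← a1, e]
        · rcases a2 with a2 | a2
          · right
            exact ⟨fun e => hdiff (by rw [← e, a2]), a2⟩
          · exfalso
            apply hdiff
            have b1 := hgm two
            have b2 := hhm two
            have e3 : (g two + 1) % m = (h two + 1) % m := by rw [← a1, ← a2]
            have c1 : g two + 1 ≤ m := b1
            have c2 : h two + 1 ≤ m := b2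
            rcases Nat.lt_or_eq_of_le c1 with d1 | d1 <;> rcases Nat.lt_or_eq_of_le c2 with d2 | d2
            · rw [Nat.mod_eq_of_lt d1, Nat.mod_eq_of_lt d2] at e3
              omega
            · rw [Nat.mod_eq_of_lt d1, d2, Nat.mod_self] at e3
              omega
            · rw [Nat.mod_eq_of_lt d2, d1, Nat.mod_self] at e3
              omega
            · omega
    rcases hflip with ⟨f1, f2⟩ | ⟨f1, f2⟩
    · have n1 : N g = ∑ t ∈ A, g t + 1 := by
        show ∑ t ∈ A, g t + (if g 0 = g two then 1 else 0) = _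
        rw [if_pos f1]
      have n2 : N h = ∑ t ∈ A, h t + 0 := by
        show ∑ t ∈ A, h t + (if h 0 = h two then 1 else 0) = _
        rw [if_neg f2]
      rw [n1, n2, hsum] at hpar
      omega
    · have n1 : N g = ∑ t ∈ A, g t + 0 := by
        show ∑ t ∈ A, g t + (if g 0 = g two then 1 else 0) = _
        rw [if_neg f1]
      have n2 : N h = ∑ t ∈ A, h t + 1 := by
        show ∑ t ∈ A, h t + (if h 0 = h two then 1 else 0) = _
        rw [if_pos f2]
      rw [n1, n2, hsum] at hpar
      omega
  · have hiA : i ∈ A := Finset.mem_filter.mpr ⟨Finset.mem_univ _, hi02⟩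
    have e0 : g 0 = h 0 := hi 0 (by rintro rfl; exact hi02 (Or.inl rfl))
    have e2 : g two = h two := hi two (by rintro rfl; exact hi02 (Or.inr h2v))
    have s1 : ∑ t ∈ A, g t = g i + ∑ t ∈ A.erase i, g t := (Finset.add_sum_erase _ _ hiA).symm
    have s2 : ∑ t ∈ A, h t = h i + ∑ t ∈ A.erase i, g t := by
      rw [← Finset.add_sum_erase _ _ hiA]
      congr 1
      exact Finset.sum_congr rfl fun t ht => (hi t (Finset.ne_of_mem_erase ht)).symm
    have n1 : N g = g i + ∑ t ∈ A.erase i, g t + (if g 0 = g two then 1 else 0) := by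
      show ∑ t ∈ A, g t + (if g 0 = g two then 1 else 0) = _
      rw [s1]
    have n2 : N h = h i + ∑ t ∈ A.erase i, g t + (if g 0 = g two then 1 else 0) := by
      show ∑ t ∈ A, h t + (if h 0 = h two then 1 else 0) = _
      rw [s2, ← e0, ← e2]
    rw [n1, n2] at hpar
    have a1 := (hg'.1 i).2 hi02
    have a2 := (hh'.1 i).2 hi02
    omega

end Pool.Agent.H48.PMF
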