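import Pool.Agent.H48.PMF.RRB
import Pool.Agent.H48.PMF.ORF

/-!
# MP_def5ca_co, row SPL
-/

set_option autoImplicit false

open Pool.Agent.H54.PM
open scoped symmDiff

namespace Pool.Agent.H48.PMF

/-- a cycle of length six minus one element is connected -/
theorem cyc6 {α : Type} (R : α → α → Prop) (c : Fin 6 → α) (a : Fin 6)
    (h1 : ∀ k, k ≠ a → k + 1 ≠ a → R (c k) (c (k + 1)) ∧ R (c (k + 1)) (c k)) :
    ∀ x y, x ≠ a → y ≠ a → Relation.ReflTransGen R (c x) (c y) := by
  have key : ∀ n : Fin 6, n ≠ 0 → Relation.ReflTransGen R (c (a + 1)) (c (a + n)) ∧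
      Relation.ReflTransGen R (c (a + n)) (c (a + 1)) := by
    have step : ∀ n : Fin 6, n ≠ 0 → n + 1 ≠ 0 →
        (Relation.ReflTransGen R (c (a + 1)) (c (a + n)) ∧
          Relation.ReflTransGen R (c (a + n)) (c (a + 1))) →
        (Relation.ReflTransGen R (c (a + 1)) (c (a + (n + 1))) ∧
          Relation.ReflTransGen R (c (a + (n + 1))) (c (a + 1))) := by
      intro n hn hn1 ⟨i1, i2⟩
      have e1 : a + n ≠ a := by
        intro h
        exact hn (by simpa using h)
      have e2 : a + n + 1 ≠ a := by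
        intro h
        rw [add_assoc] at h
        exact hn1 (by simpa using h)
      obtain ⟨r1, r2⟩ := h1 (a + n) e1 e2
      rw [add_assoc] at r1 r2
      exact ⟨i1.tail r1, Relation.ReflTransGen.head r2 i2⟩
    have s1 : Relation.ReflTransGen R (c (a + 1)) (c (a + 1)) ∧
        Relation.ReflTransGen R (c (a + 1)) (c (a + 1)) :=
      ⟨Relation.ReflTransGen.refl, Relation.ReflTransGen.refl⟩
    have s2 := step 1 (by decide) (by decide) s1
    have s3 := step (1 + 1) (by decide) (by decide) s2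
    have s4 := step (1 + 1 + 1) (by decide) (by decide) s3
    have s5 := step (1 + 1 + 1 + 1) (by decide) (by decide) s4
    intro n hn
    fin_cases n
    · exact absurd rfl hn
    · exact s1
    · exact s2
    · exact s3
    · exact s4
    · exact s5
  intro x y hx hy
  have hx' := (key (x - a) (by intro h; exact hx (sub_eq_zero.mp h))).2
  have hy' := (key (y - a) (by intro h; exact hy (sub_eq_zero.mp h))).1
  rw [add_sub_cancel] at hx' hy'
  exact hx'.trans hy'

/-- the word with the letters `a`, `b` at the places `0`, `1`, and `0` elsewhere -/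
def PW (p : ℕ) [NeZero p] (a b : ℕ) : Wd p := fun t => if t = 0 then a else if t = Fin.ofNat p 1 then b else 0

section

variable {p : ℕ} [NeZero p]

theorem PW0 (a b : ℕ) : PW p a b 0 = a := by
  unfold PW
  rw [if_pos rfl]

theorem one_ne (hp : 5 ≤ p) : (Fin.ofNat p 1 : Fin p) ≠ 0 := by
  intro h
  have := congrArg Fin.val h
  rw [ofNat_val p 1 (by omega)] at this
  have h0 : (0 : Fin p).val = 0 := rfl
  omega

theorem PW1 (hp : 5 ≤ p) (a b : ℕ) : PW p a b (Fin.ofNat p 1) = b := by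
  unfold PW
  rw [if_neg (one_ne hp), if_pos rfl]

theorem PWt (a b : ℕ) (t : Fin p) (h0 : t ≠ 0) (h1 : t ≠ Fin.ofNat p 1) : PW p a b t = 0 := by
  unfold PW
  rw [if_neg h0, if_neg h1]

theorem PW_RR (hp : 5 ≤ p) {m : ℕ} (hm : 2 ≤ m) (a b : ℕ) :
    PW p a b ∈ RR p m ↔ (a = 0 ∨ a = 1) ∧ (b = 0 ∨ b = 1) := by
  have h2v : (Fin.ofNat p 2 : Fin p).val = 2 := ofNat_val p 2 (by omega)
  have h1v : (Fin.ofNat p 1 : Fin p).val = 1 := ofNat_val p 1 (by omega)
  have h20 : (Fin.ofNat p 2 : Fin p) ≠ 0 := by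
    intro h
    have := congrArg Fin.val h
    rw [h2v] at this
    have h0 : (0 : Fin p).val = 0 := rfl
    omega
  have h21 : (Fin.ofNat p 2 : Fin p) ≠ Fin.ofNat p 1 := by
    intro h
    have := congrArg Fin.val h
    rw [h2v, h1v] at this
    exact absurd this (by decide)
  have h1m : (0 + 1) % m = 1 := Nat.mod_eq_of_lt (by omega)
  rw [mem_RR hp, PW0, PWt a b _ h20 h21, h1m]
  constructor
  · rintro ⟨h, h'⟩
    refine ⟨h', ?_⟩
    have := (h (Fin.ofNat p 1)).2 (by rw [h1v]; decide)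
    rwa [PW1 hp] at this
  · rintro ⟨ha, hb⟩
    refine ⟨fun i => ⟨fun hi => ?_, fun hi => ?_⟩, ha⟩
    · rcases hi with hi | hi
      · have : i = 0 := Fin.ext hi
        rw [this, PW0]
        omega
      · have : i = Fin.ofNat p 2 := Fin.ext (by rw [hi, h2v])
        rw [this, PWt a b _ h20 h21]
        omega
    · by_cases h1 : i = Fin.ofNat p 1
      · rw [h1, PW1 hp]
        exact hb
      · left
        refine PWt a b i (fun h0 => hi (Or.inl ?_)) h1
        rw [h0]
        rfl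

theorem PW_cube (hp : 5 ≤ p) (u v : Wd p) (hu : ∀ t, t ≠ 0 → t ≠ Fin.ofNat p 1 → u t = 0) (a b : ℕ) :
    PW p a b ∈ cube u v ↔ (a = u 0 ∨ a = v 0) ∧ (b = u (Fin.ofNat p 1) ∨ b = v (Fin.ofNat p 1)) := by
  unfold cube
  rw [Fintype.mem_piFinset]
  constructor
  · intro h
    have e0 := h 0
    have e1 := h (Fin.ofNat p 1)
    rw [Finset.mem_insert, Finset.mem_singleton, PW0] at e0
    rw [Finset.mem_insert, Finset.mem_singleton, PW1 hp] at e1
    exact ⟨e0, e1⟩
  · rintro ⟨ha, hb⟩ t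
    rw [Finset.mem_insert, Finset.mem_singleton]
    by_cases h0 : t = 0
    · rw [h0, PW0]; exact ha
    · by_cases h1 : t = Fin.ofNat p 1
      · rw [h1, PW1 hp]; exact hb
      · left
        rw [PWt a b t h0 h1, hu t h0 h1]

theorem PW_WN (hp : 5 ≤ p) {m : ℕ} (hm : 2 ≤ m) (a b : ℕ) :
    PW p a b ∈ WN p m (Fin.ofNat p 1) ↔
      Xor (Xor ((a = 0 ∨ a = 1) ∧ (b = 0 ∨ b = 1)) ((a = 0 ∨ a = m) ∧ (b = 0 ∨ b = m)))
        ((a = 1 ∨ a = m) ∧ (b = 1 ∨ b = m)) := by
  unfold WN WA
  rw [Finset.mem_symmDiff, Finset.mem_symmDiff, PW_RR hp hm]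
  rw [PW_cube hp (fun _ => 0) (fun _ => m) (fun _ _ _ => rfl)]
  rw [PW_cube hp (w2 (Fin.ofNat p 1) 1 0) (w2 (Fin.ofNat p 1) m (m + 1)) (fun t h0 h1 => by
    unfold w2
    rw [if_neg (by rintro (h | h); exacts [h0 h, h1 h])])]
  have e0 : ∀ x y, w2 (Fin.ofNat p 1 : Fin p) x y 0 = x := fun x y => by
    unfold w2
    rw [if_pos (Or.inl rfl)]
  have e1 : ∀ x y, w2 (Fin.ofNat p 1 : Fin p) x y (Fin.ofNat p 1) = x := fun x y => by
    unfold w2
    rw [if_pos (Or.inr rfl)]
  rw [e0, e0, e1, e1]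
  rfl

end

/-- the six words -/
def q6 (m : ℕ) : Fin 6 → ℕ × ℕ := ![(0, 1), (0, m), (1, m), (1, 0), (m, 0), (m, 1)]

theorem q6_inj (m : ℕ) (hm : 2 ≤ m) : Function.Injective (q6 m) := by
  intro x y h
  have h1 := congrArg Prod.fst h
  have h2 := congrArg Prod.snd h
  fin_cases x <;> fin_cases y <;> simp [q6] at h1 h2 ⊢ <;> omega

theorem pf_SPL : T_SPL := by
  intro p _ m hp hm
  set one : Fin p := Fin.ofNat p 1 with hone
  set c : Fin 6 → Wd p := fun k => PW p (q6 m k).1 (q6 m k).2 with hc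
  have h01 : (0 : Fin p) + 1 = one := by
    rw [zero_add]
    apply Fin.ext
    rw [hone, ofNat_val p 1 (by omega)]
    exact ofNat_val p 1 (by omega)
  have hcW : ∀ k, c k ∈ WN p m one := by
    intro k
    show PW p (q6 m k).1 (q6 m k).2 ∈ WN p m (Fin.ofNat p 1)
    rw [PW_WN hp hm]
    unfold Xor
    fin_cases k <;> simp [q6] <;> omega
  have hplane : ∀ g, g ∈ WN p m one → ag2 0 (w2 one 1 0) g → ∃ k, g = c k := by
    intro g hg hag
    have e : g = PW p (g 0) (g one) := by
      funext t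
      by_cases h0 : t = 0
      · rw [h0, PW0]
      · by_cases h1 : t = one
        · rw [h1]; exact (PW1 hp _ _).symm
        · rw [PWt _ _ t h0 h1]
          have := hag t h0 (by rw [h01]; exact h1)
          rw [← this]
          unfold w2
          rw [if_neg (by rintro (h | h); exacts [h0 h, h1 h])]
    rw [e] at hg ⊢
    generalize g 0 = a at hg ⊢
    generalize g one = b at hg ⊢
    rw [hone, PW_WN hp hm] at hg
    have ha : a = 0 ∨ a = 1 ∨ a = m := by
      unfold Xor at hg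
      tauto
    have hb : b = 0 ∨ b = 1 ∨ b = m := by
      unfold Xor at hg
      tauto
    unfold Xor at hg
    rcases ha with rfl | rfl | rfl <;> rcases hb with rfl | rfl | rfl
    · exfalso; revert hg; simp; omega
    · exact ⟨0, rfl⟩
    · exact ⟨1, rfl⟩
    · exact ⟨3, rfl⟩
    · exfalso; revert hg; simp; omega
    · exact ⟨2, rfl⟩
    · exact ⟨4, rfl⟩
    · exact ⟨5, rfl⟩
    · exfalso; revert hg; simp; omega
  have hcinj : ∀ x y, c x = c y → x = y := by
    intro x y h
    apply q6_inj m hm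
    apply Prod.ext
    · have := congrFun h 0
      simpa only [hc, PW0] using this
    · have := congrFun h one
      have e1 : c x one = (q6 m x).2 := PW1 hp _ _
      have e2 : c y one = (q6 m y).2 := PW1 hp _ _
      rw [e1, e2] at this
      exact this
  -- neighbours
  have hag0 : ∀ a a' b, ag 0 (PW p a b) (PW p a' b) := by
    intro a a' b t ht
    unfold PW
    rw [if_neg ht, if_neg ht]
  have hag1 : ∀ a b b', ag (0 + 1) (PW p a b) (PW p a b') := by
    intro a b b' t ht
    rw [h01] at ht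
    unfold PW
    by_cases h0 : t = 0
    · rw [if_pos h0, if_pos h0]
    · rw [if_neg h0, if_neg h0, if_neg ht, if_neg ht]
  have hadj : ∀ k, ag 0 (c k) (c (k + 1)) ∨ ag (0 + 1) (c k) (c (k + 1)) := by
    intro k
    fin_cases k
    · right; exact hag1 0 1 m
    · left; exact hag0 0 1 m
    · right; exact hag1 1 m 0
    · left; exact hag0 1 m 0
    · right; exact hag1 m 0 1
    · left; exact hag0 m 0 1
  have hsym : ∀ i (g h : Wd p), ag i g h → ag i h g := fun i g h H t ht => (H t ht).symm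
  intro f hf g hg h hh kf kg kh hgf hhf
  obtain ⟨a, rfl⟩ := hplane f hf kf
  obtain ⟨x, rfl⟩ := hplane g hg kg
  obtain ⟨y, rfl⟩ := hplane h hh kh
  apply cyc6 (st (WN p m one) 0 (c a)) c a
  · intro k hk hk1
    refine ⟨⟨hcW _, fun e => hk1 (hcinj _ _ e), hadj k⟩, ⟨hcW _, fun e => hk (hcinj _ _ e), ?_⟩⟩
    exact (hadj k).imp (hsym _ _ _) (hsym _ _ _)
  · rintro rfl; exact hgf rfl
  · rintro rfl; exact hhf rfl

end Pool.Agent.H48.PMF
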